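import Pool.Agent.Y993.HP.Stm

/-! Job HP-BDD (helper409): upper bound for `gL`. -/

set_option autoImplicit false

namespace Pool.Agent.Y409.HP

open Finset
open Pool.Agent.Y993.HP

lemma Pr_cover {Ω : Type} [Fintype Ω] [Nonempty Ω] (E F : Ω → Prop) (h : ∀ ω, E ω ∨ F ω) :
    1 ≤ Pr E + Pr F := by
  classical
  unfold Pr Ex
  rw [← add_div, ← Finset.sum_add_distrib, le_div_iff₀ (by exact_mod_cast Fintype.card_pos)]
  have h1 : (1 : ℝ) * (Fintype.card Ω : ℝ) = ∑ _ω : Ω, (1 : ℝ) := by simp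
  rw [h1]
  refine Finset.sum_le_sum fun ω _ => ?_
  rcases h ω with h2 | h2
  · rw [if_pos h2]
    split_ifs <;> norm_num
  · rw [if_pos h2]
    split_ifs <;> norm_num

lemma Pr_mono {Ω : Type} [Fintype Ω] (E F : Ω → Prop) (h : ∀ ω, E ω → F ω) : Pr E ≤ Pr F := by
  classical
  unfold Pr Ex
  refine div_le_div_of_nonneg_right ?_ (by positivity)
  refine Finset.sum_le_sum fun ω _ => ?_
  by_cases h1 : E ω
  · rw [if_pos h1, if_pos (h ω h1)]
  · rw [if_neg h1]
    split_ifs <;> norm_num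

lemma IsCh.subset {d n N : ℕ} {u : Lab d n N} {C D : Finset (Pt d n)} (h : IsCh u C)
    (hD : D ⊆ C) : IsCh u D := fun p hp q hq hpq => h p (hD hp) q (hD hq) hpq

lemma exists_chain {d n N : ℕ} (u : Lab d n N) (X : Finset (Pt d n)) :
    ∃ C ⊆ X, C.card = lg u X ∧ IsCh u C := by
  classical
  unfold lg
  obtain ⟨C, hC, he⟩ := Finset.exists_mem_eq_sup
    (X.powerset.filter (fun C => IsCh u C)) ⟨∅, by
      rw [Finset.mem_filter]
      exact ⟨Finset.empty_mem_powerset X, fun p hp => absurd hp (Finset.notMem_empty p)⟩⟩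
    Finset.card
  rw [Finset.mem_filter, Finset.mem_powerset] at hC
  refine ⟨C, hC.1, ?_, hC.2⟩
  rw [← he]

lemma mm_pos {k n : ℕ} (hn : 1 ≤ n) : 1 ≤ mm k n := by
  unfold mm
  exact Real.one_le_rpow (by exact_mod_cast hn) (by positivity)

lemma mm_pow {k n : ℕ} : mm k n ^ (k + 1) = (n : ℝ) ^ k := by
  unfold mm
  rw [← Real.rpow_natCast, ← Real.rpow_mul (by positivity)]
  have : (k : ℝ) / ((k : ℝ) + 1) * ((k + 1 : ℕ) : ℝ) = (k : ℝ) := by
    push_cast
    field_simp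
  rw [this, Real.rpow_natCast]

theorem bdd1 (h1 : S_LOW) (h2 : S_FM) (h3 : S_EXI) (h4 : S_CARD) : S_BDD := by
  intro k hk L κ hκ
  by_contra hcon
  rw [not_le] at hcon
  set y : ℝ := κ ^ (1 / ((k : ℝ) + 1)) with hy
  have hy0 : 0 < y := Real.rpow_pos_of_pos hκ _
  obtain ⟨n0, hn0⟩ := h1 k L κ 1 hk hκ one_pos (1 / 4) (by norm_num)
  set n := max n0 1 with hn
  have hn1 : 1 ≤ n := le_max_right _ _
  obtain ⟨A, hA⟩ := h3 k n hk hn1
  obtain ⟨N, hN, -, hP⟩ := hn0 n (le_max_left _ _) A hA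
  have hm1 : 1 ≤ mm k n := mm_pos hn1
  set m := mm k n with hm
  have hm0 : 0 < m := by linarith
  haveI : Nonempty (Fin N) := ⟨⟨0, hN⟩⟩
  have hg : 19 ≤ gL (k + 1) L κ / y - 1 := by
    have : 20 ≤ gL (k + 1) L κ / y := by
      rw [le_div_iff₀ hy0]; exact hcon.le
    linarith
  -- the number of points of the long chain
  set b : ℕ := ⌈Real.exp 2 * m⌉₊ with hb
  have he2 : Real.exp 2 ≤ 8 := by
    have h5 : Real.exp 2 = Real.exp 1 * Real.exp 1 := by rw [← Real.exp_add]; norm_num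
    have h6 := Real.exp_one_lt_d9
    have h7 := Real.exp_pos 1
    rw [h5]; nlinarith
  have hb1 : Real.exp 2 * m ≤ b := Nat.le_ceil _
  have hb2 : (b : ℝ) ≤ 9 * m := by
    have := Nat.ceil_lt_add_one (show 0 ≤ Real.exp 2 * m by positivity)
    have h8 : Real.exp 2 * m ≤ 8 * m := by gcongr
    rw [← hb] at this
    linarith
  have hb0 : (1 : ℝ) ≤ b := by
    have h9 : (1 : ℝ) ≤ Real.exp 2 := Real.one_le_exp (by norm_num)
    nlinarith
  have hFM := h2 (k + 1) n N b A 0 Finset.univ hN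
  have hfirst : Pr (fun u : Lab (k + 1) n N => ∃ C ⊆ A, C.card = b ∧ IsCh u C ∧
      ∀ p ∈ C, u (0, p 0) ∈ (Finset.univ : Finset (Fin N))) ≤ Real.exp (-1) := by
    refine hFM.trans ?_
    rw [(h4 k n A hn1 hA).1]
    have hN' : ((Finset.univ : Finset (Fin N)).card : ℝ) / N = 1 := by
      rw [Finset.card_univ, Fintype.card_fin]
      exact div_self (by exact_mod_cast hN.ne')
    rw [hN', one_pow, mul_one]
    have e1 : (((n ^ k : ℕ) : ℝ)) ^ b / (b.factorial : ℝ) ^ (k + 1) =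
        (m ^ b / (b.factorial : ℝ)) ^ (k + 1) := by
      push_cast
      rw [div_pow, ← mm_pow, ← hm, ← pow_mul, ← pow_mul, mul_comm]
    rw [e1]
    have e2 : m ^ b / (b.factorial : ℝ) ≤ Real.exp (-1) := by
      have e3 := Real.pow_div_factorial_le_exp (Real.exp 2 * m) (by positivity) b
      have e4 : (Real.exp 2 * m) ^ b / (b.factorial : ℝ) =
          Real.exp (2 * b) * (m ^ b / (b.factorial : ℝ)) := by
        rw [mul_pow, ← Real.exp_nat_mul, mul_div_assoc, mul_comm (b : ℝ) 2]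
      rw [e4] at e3
      have e5 : m ^ b / (b.factorial : ℝ) =
          Real.exp (-(2 * b)) * (Real.exp (2 * b) * (m ^ b / (b.factorial : ℝ))) := by
        rw [← mul_assoc, ← Real.exp_add]; simp
      rw [e5]
      calc Real.exp (-(2 * b)) * (Real.exp (2 * b) * (m ^ b / (b.factorial : ℝ)))
          ≤ Real.exp (-(2 * b)) * Real.exp (Real.exp 2 * m) := by gcongr
        _ = Real.exp (-(2 * b) + Real.exp 2 * m) := by rw [← Real.exp_add]
        _ ≤ Real.exp (-1) := Real.exp_le_exp.2 (by linarith)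
    have e6 : 0 ≤ m ^ b / (b.factorial : ℝ) := by positivity
    have e7 : Real.exp (-1) ≤ 1 := Real.exp_le_one_iff.2 (by norm_num)
    calc (m ^ b / (b.factorial : ℝ)) ^ (k + 1) ≤ Real.exp (-1) ^ (k + 1) := by gcongr
      _ = Real.exp (-1) ^ k * Real.exp (-1) := pow_succ _ _
      _ ≤ 1 * Real.exp (-1) := by
          gcongr
          exact pow_le_one₀ (Real.exp_pos _).le e7
      _ = Real.exp (-1) := one_mul _
  have hcov := Pr_cover (Ω := Lab (k + 1) n N)
    (fun u => (lg u A : ℝ) ≤ (gL (k + 1) L κ / y - 1) * m)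
    (fun u => ∃ C ⊆ A, C.card = b ∧ IsCh u C ∧
      ∀ p ∈ C, u (0, p 0) ∈ (Finset.univ : Finset (Fin N))) (by
    intro u
    by_cases h5 : (lg u A : ℝ) ≤ (gL (k + 1) L κ / y - 1) * m
    · exact Or.inl h5
    · right
      rw [not_le] at h5
      have h6 : b ≤ lg u A := by
        have h7 : 19 * m ≤ (gL (k + 1) L κ / y - 1) * m := by gcongr
        have h8 : (b : ℝ) ≤ (lg u A : ℝ) := by linarith
        exact_mod_cast h8
      obtain ⟨C, hC1, hC2, hC3⟩ := exists_chain u A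
      rw [← hC2] at h6
      obtain ⟨D, hD1, hD2⟩ := Finset.exists_subset_card_eq h6
      exact ⟨D, hD1.trans hC1, hD2, IsCh.subset hC3 hD1, fun p _ => Finset.mem_univ _⟩)
  have he : Real.exp (-1) < 1 / 2 := by
    rw [Real.exp_neg, inv_eq_one_div]
    apply one_div_lt_one_div_of_lt (by norm_num)
    have := Real.exp_one_gt_d9
    linarith
  linarith

end Pool.Agent.Y409.HP
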