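import Pool.Agent.Y993.HP.Stm

/-! Job HP-NEWT (helper409): Newton expansion with remainder. -/

set_option autoImplicit false

namespace Pool.Agent.Y409.HP

open Finset
open Pool.Agent.Y993.HP

/-- forward difference -/
def dl (f : ℕ → ℝ) : ℕ → ℝ := fun i => f (i + 1) - f i

lemma nd_eq (f : ℕ → ℝ) (j : ℕ) : nd f j = (fwdDiff 1)^[j] f 0 := by
  rw [fwdDiff_iter_eq_sum_shift]
  unfold nd
  refine Finset.sum_congr rfl fun i _ => ?_
  rw [zsmul_eq_mul]
  push_cast
  simp

lemma nd_zero (f : ℕ → ℝ) : nd f 0 = f 0 := by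
  rw [nd_eq]; rfl

lemma nd_succ (f : ℕ → ℝ) (j : ℕ) : nd f (j + 1) = nd (dl f) j := by
  rw [nd_eq, nd_eq, Function.iterate_succ_apply]
  rfl

lemma hockey (m j : ℕ) : (m.choose (j + 1) : ℝ) = ∑ i ∈ range m, (i.choose j : ℝ) := by
  induction m with
  | zero => simp
  | succ m ih =>
    rw [Finset.sum_range_succ, ← ih, Nat.choose_succ_succ]
    push_cast; ring

lemma rem_succ (f : ℕ → ℝ) (J m : ℕ) :
    f m - ∑ j ∈ range (J + 1), nd f j * (m.choose j : ℝ) =
      ∑ i ∈ range m, (dl f i - ∑ j ∈ range J, nd (dl f) j * (i.choose j : ℝ)) := by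
  rw [Finset.sum_sub_distrib, Finset.sum_range_succ' (fun j => nd f j * (m.choose j : ℝ))]
  have h1 : ∑ i ∈ range m, dl f i = f m - f 0 := by
    unfold dl
    exact Finset.sum_range_sub f m
  rw [h1, Finset.sum_comm]
  simp only [nd_succ, nd_zero, Nat.choose_zero_right, Nat.cast_one, mul_one]
  have h2 : ∑ j ∈ range J, nd (dl f) j * (m.choose (j + 1) : ℝ) =
      ∑ j ∈ range J, ∑ i ∈ range m, nd (dl f) j * (i.choose j : ℝ) := by
    refine Finset.sum_congr rfl fun j _ => ?_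
    rw [hockey, Finset.mul_sum]
  rw [h2]
  ring

theorem newt : S_NEWT := by
  intro f B hf m J
  induction J generalizing f B m with
  | zero => simpa using hf m
  | succ J ih =>
    rw [rem_succ]
    have h1 : ∀ i, |dl f i| ≤ 2 * B := by
      intro i
      unfold dl
      calc |f (i + 1) - f i| ≤ |f (i + 1)| + |f i| := abs_sub _ _
        _ ≤ 2 * B := by linarith [hf (i + 1), hf i]
    calc |∑ i ∈ range m, (dl f i - ∑ j ∈ range J, nd (dl f) j * (i.choose j : ℝ))|
        ≤ ∑ i ∈ range m, |dl f i - ∑ j ∈ range J, nd (dl f) j * (i.choose j : ℝ)| :=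
          Finset.abs_sum_le_sum_abs _ _
      _ ≤ ∑ i ∈ range m, 2 ^ J * (2 * B) * (i.choose J : ℝ) :=
          Finset.sum_le_sum fun i _ => ih (dl f) (2 * B) h1 i
      _ = 2 ^ (J + 1) * B * (m.choose (J + 1) : ℝ) := by
          rw [← Finset.mul_sum, ← hockey]; ring

end Pool.Agent.Y409.HP
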